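import Pool.Agent.H77.TE.Main

/-!
# MP_dca5ce_ag: descent of freeness in codimension two along faithfully flat maps
-/

namespace Pool.Agent.H77.TE

open TensorProduct Pool.Agent.H16 Pool.Agent.H19.Mult

universe u

/-- A prime of `R` has a prime of the same height over it in a faithfully flat Noetherian extension. -/
theorem exists_prime_over {R R' : Type*} [CommRing R] [CommRing R'] [Algebra R R']
    [Module.FaithfullyFlat R R'] [IsNoetherianRing R] [IsNoetherianRing R'] (P : Ideal R) [P.IsPrime] :
    ∃ P' : Ideal R', P'.IsPrime ∧ P'.LiesOver P ∧ P'.height ≤ P.height := by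
  obtain ⟨Q, hQ, hQP⟩ := Ideal.exists_isPrime_liesOver_of_faithfullyFlat (B := R') P
  have hle : P.map (algebraMap R R') ≤ Q := by
    rw [Ideal.map_le_iff_le_comap]
    exact hQP.over.le
  obtain ⟨P', hP', hP'Q⟩ := Ideal.exists_minimalPrimes_le hle
  have hprime : P'.IsPrime := hP'.1.1
  have hover : P'.LiesOver P := by
    constructor
    apply le_antisymm
    · exact Ideal.map_le_iff_le_comap.1 hP'.1.2
    · refine (Ideal.comap_mono hP'Q).trans ?_
      exact hQP.over.ge
  refine ⟨P', hprime, hover, ?_⟩
  rw [Ideal.height_eq_height_add_of_liesOver_of_hasGoingDown P P']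
  have h1 : (P'.map (Ideal.Quotient.mk (P.map (algebraMap R R')))).height = 0 := by
    rw [Ideal.minimalPrimes_eq_comap] at hP'
    obtain ⟨K, hK, hKP⟩ := hP'
    rw [← hKP, Ideal.map_comap_of_surjective _ Ideal.Quotient.mk_surjective]
    have : K.IsPrime := hK.1.1
    exact Ideal.height_eq_zero_iff.2 hK
  rw [h1, add_zero]

/-- Freeness at `P` descends from a prime over `P` in a faithfully flat extension. -/
theorem not_free_over (R R' : Type u) [CommRing R] [CommRing R'] [Algebra R R']
    [Module.FaithfullyFlat R R'] (M : Type u) [AddCommGroup M] [Module R M] [Module.Finite R M]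
    (P : Ideal R) [P.IsPrime] (P' : Ideal R') [P'.IsPrime] [P'.LiesOver P]
    (hM : ¬ Module.Free (Localization.AtPrime P) (Localization.AtPrime P ⊗[R] M)) :
    ¬ Module.Free (Localization.AtPrime P') (Localization.AtPrime P' ⊗[R'] (R' ⊗[R] M)) := by
  intro hfree
  apply hM
  let _ := Localization.AtPrime.algebraOfLiesOver P P'
  have hlh : IsLocalHom (algebraMap (Localization.AtPrime P) (Localization.AtPrime P')) := by
    rw [RingHom.algebraMap_toAlgebra]
    exact Localization.isLocalHom_localRingHom P P' (algebraMap R R') Ideal.LiesOver.over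
  have hflR : Module.Flat R (Localization.AtPrime P') := by
    have : Module.Flat R' (Localization.AtPrime P') := IsLocalization.flat _ P'.primeCompl
    exact Module.Flat.trans R R' _
  have hfl : Module.Flat (Localization.AtPrime P) (Localization.AtPrime P') :=
    (Module.flat_iff_of_isLocalization (Localization.AtPrime P) P.primeCompl
      (Localization.AtPrime P')).2 hflR
  have hff : Module.FaithfullyFlat (Localization.AtPrime P) (Localization.AtPrime P') :=
    Module.FaithfullyFlat.of_flat_of_isLocalHom
  let e1 : Localization.AtPrime P' ⊗[R'] (R' ⊗[R] M) ≃ₗ[Localization.AtPrime P']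
      Localization.AtPrime P' ⊗[R] M :=
    TensorProduct.AlgebraTensorModule.cancelBaseChange R R' (Localization.AtPrime P')
      (Localization.AtPrime P') M
  let e2 : Localization.AtPrime P' ⊗[Localization.AtPrime P] (Localization.AtPrime P ⊗[R] M)
      ≃ₗ[Localization.AtPrime P'] Localization.AtPrime P' ⊗[R] M :=
    TensorProduct.AlgebraTensorModule.cancelBaseChange R (Localization.AtPrime P)
      (Localization.AtPrime P') (Localization.AtPrime P') M
  have hfree2 : Module.Free (Localization.AtPrime P')
      (Localization.AtPrime P' ⊗[Localization.AtPrime P] (Localization.AtPrime P ⊗[R] M)) :=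
    Module.Free.of_equiv (e1.trans e2.symm)
  have hflat2 : Module.Flat (Localization.AtPrime P) (Localization.AtPrime P ⊗[R] M) :=
    flat_descent (Localization.AtPrime P) (Localization.AtPrime P') _
  exact Module.free_of_flat_of_isLocalRing

end Pool.Agent.H77.TE
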