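import Mathlib

/-!
# MP_dca5ce_ag: generators of ideals in algebras that are spanned by few elements over a principal ideal ring
-/

namespace Pool.Agent.H77.TE

/-- Submodules of a free module of rank `g` over a principal ideal ring are generated by `g` elements. -/
theorem submodule_gens {B : Type*} [CommRing B] [IsPrincipalIdealRing B] :
    ∀ (g : ℕ) (N : Submodule B (Fin g → B)), ∃ n : Fin g → (Fin g → B),
      Submodule.span B (Set.range n) = N := by
  intro g
  induction g with
  | zero =>
    intro N
    refine ⟨fun i => i.elim0, ?_⟩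
    have h1 : ∀ x : Fin 0 → B, x = 0 := fun x => Subsingleton.elim _ _
    apply le_antisymm
    · rw [Submodule.span_le]
      rintro _ ⟨i, rfl⟩
      exact i.elim0
    · intro x _
      rw [h1 x]
      exact Submodule.zero_mem _
  | succ g ih =>
    intro N
    -- first coordinates of elements of `N`
    let I : Ideal B := N.map (LinearMap.proj (R := B) (φ := fun _ : Fin (g + 1) => B) 0)
    obtain ⟨b, hb⟩ : ∃ b, I = Ideal.span {b} := (IsPrincipalIdealRing.principal I).principal
    have hbI : b ∈ I := by rw [hb]; exact Ideal.mem_span_singleton_self b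
    obtain ⟨v, hvN, hv⟩ := Submodule.mem_map.1 hbI
    have hv0 : v 0 = b := hv
    -- tails of elements of `N` with first coordinate zero
    let tl : (Fin (g + 1) → B) →ₗ[B] (Fin g → B) := LinearMap.funLeft B B Fin.succ
    let N' : Submodule B (Fin g → B) := (N ⊓ LinearMap.ker (LinearMap.proj (R := B)
      (φ := fun _ : Fin (g + 1) => B) 0)).map tl
    obtain ⟨n', hn'⟩ := ih N'
    have hlift : ∀ j, ∃ w ∈ N, w 0 = 0 ∧ tl w = n' j := by
      intro j
      have h1 : n' j ∈ N' := by rw [← hn']; exact Submodule.subset_span ⟨j, rfl⟩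
      obtain ⟨w, hw, hw2⟩ := Submodule.mem_map.1 h1
      exact ⟨w, hw.1, hw.2, hw2⟩
    choose w hwN hw0 hwt using hlift
    refine ⟨Fin.cons v w, ?_⟩
    apply le_antisymm
    · rw [Submodule.span_le]
      rintro _ ⟨i, rfl⟩
      induction i using Fin.cases with
      | zero => simpa using hvN
      | succ i => simpa using hwN i
    · intro x hx
      have h1 : x 0 ∈ I := Submodule.mem_map.2 ⟨x, hx, rfl⟩
      rw [hb] at h1
      obtain ⟨c, hc⟩ := Ideal.mem_span_singleton'.1 h1
      have h2 : x - c • v ∈ N := N.sub_mem hx (N.smul_mem _ hvN)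
      have h3 : (x - c • v) 0 = 0 := by
        simp only [Pi.sub_apply, Pi.smul_apply, smul_eq_mul, hv0, hc, sub_self]
      have h4 : tl (x - c • v) ∈ N' := Submodule.mem_map.2 ⟨_, ⟨h2, h3⟩, rfl⟩
      rw [← hn'] at h4
      obtain ⟨a, ha⟩ := (Submodule.mem_span_range_iff_exists_fun B).1 h4
      have h5 : x - c • v = ∑ j, a j • w j := by
        funext i
        induction i using Fin.cases with
        | zero =>
          rw [h3]
          simp [Finset.sum_apply, hw0]
        | succ i =>
          have h6 := congrFun ha i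
          have h7 : ∀ j, n' j i = w j i.succ := by
            intro j
            rw [← hwt j]
            rfl
          have h8 : tl (x - c • v) i = (x - c • v) i.succ := rfl
          rw [← h8, ← h6]
          simp [Finset.sum_apply, h7]
      have h6 : x = c • v + ∑ j, a j • w j := by
        rw [← h5]
        abel
      rw [h6]
      refine Submodule.add_mem _ (Submodule.smul_mem _ _ (Submodule.subset_span ⟨0, by simp⟩))
        (Submodule.sum_mem _ fun j _ => Submodule.smul_mem _ _ (Submodule.subset_span ⟨j.succ, by simp⟩))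

/-- ideals of an algebra over a principal ideal ring all of whose elements are, up to units, in a submodule
spanned by `g` elements -/
theorem ideal_gens {B T : Type*} [CommRing B] [CommRing T] [Algebra B T] [IsPrincipalIdealRing B]
    (g : ℕ) (s : Fin g → T)
    (hs : ∀ z : T, ∃ t : T, IsUnit t ∧ t * z ∈ Submodule.span B (Set.range s)) (J : Ideal T) :
    ∃ b : Fin g → T, Ideal.span (Set.range b) = J := by
  classical
  let π : (Fin g → B) →ₗ[B] T := Fintype.linearCombination B s
  have hrange : LinearMap.range π = Submodule.span B (Set.range s) := Fintype.range_linearCombination B s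
  obtain ⟨n, hn⟩ := submodule_gens g ((J.restrictScalars B).comap π)
  refine ⟨fun i => π (n i), ?_⟩
  apply le_antisymm
  · rw [Ideal.span_le]
    rintro _ ⟨i, rfl⟩
    have h1 : n i ∈ (J.restrictScalars B).comap π := by
      rw [← hn]; exact Submodule.subset_span ⟨i, rfl⟩
    exact h1
  · intro z hz
    obtain ⟨t, ht, htz⟩ := hs z
    rw [← hrange] at htz
    obtain ⟨c, hc⟩ := htz
    have h1 : c ∈ (J.restrictScalars B).comap π := by
      show π c ∈ J
      rw [hc]
      exact Ideal.mul_mem_left _ _ hz
    rw [← hn] at h1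
    obtain ⟨a, ha⟩ := (Submodule.mem_span_range_iff_exists_fun B).1 h1
    have h2 : t * z ∈ Ideal.span (Set.range fun i => π (n i)) := by
      rw [← hc, ← ha, map_sum]
      refine Ideal.sum_mem _ fun i _ => ?_
      rw [map_smul, Algebra.smul_def]
      exact Ideal.mul_mem_left _ _ (Ideal.subset_span ⟨i, rfl⟩)
    obtain ⟨u, rfl⟩ := ht
    have h3 : z = ↑u⁻¹ * (↑u * z) := by rw [← mul_assoc, Units.inv_mul, one_mul]
    rw [h3]
    exact Ideal.mul_mem_left _ _ h2

/-- a local Noetherian ring with principal maximal ideal is a principal ideal ring -/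
theorem pir_of_principal_maximal {B : Type*} [CommRing B] [IsLocalRing B] [IsNoetherianRing B] (y : B)
    (hy : IsLocalRing.maximalIdeal B = Ideal.span {y}) : IsPrincipalIdealRing B := by
  apply IsPrincipalIdealRing.of_prime
  intro P hP
  by_cases hyP : y ∈ P
  · have h1 : P = IsLocalRing.maximalIdeal B := by
      apply le_antisymm (IsLocalRing.le_maximalIdeal hP.ne_top)
      rw [hy, Ideal.span_le, Set.singleton_subset_iff]
      exact hyP
    rw [h1, hy]
    exact ⟨⟨y, rfl⟩⟩
  · -- `P = m P`, so `P = 0`
    have h1 : P ≤ IsLocalRing.maximalIdeal B • P := by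
      intro z hz
      have h2 : z ∈ IsLocalRing.maximalIdeal B := IsLocalRing.le_maximalIdeal hP.ne_top hz
      rw [hy] at h2
      obtain ⟨c, rfl⟩ := Ideal.mem_span_singleton'.1 h2
      have h3 : c ∈ P := (hP.mem_or_mem hz).resolve_right hyP
      rw [mul_comm, ← smul_eq_mul]
      refine Submodule.smul_mem_smul ?_ h3
      rw [hy]
      exact Ideal.mem_span_singleton_self y
    have h2 : P = ⊥ := by
      refine Submodule.eq_bot_of_le_smul_of_le_jacobson_bot (IsLocalRing.maximalIdeal B) P
        (IsNoetherian.noetherian P) h1 ?_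
      exact IsLocalRing.maximalIdeal_le_jacobson _
    rw [h2]
    exact ⟨⟨0, by simp⟩⟩

/-- a quotient of a local Noetherian ring whose maximal ideal is generated by two elements -/
theorem pir_quotient {C : Type*} [CommRing C] [IsLocalRing C] [IsNoetherianRing C] (x y : C)
    (hxy : IsLocalRing.maximalIdeal C = Ideal.span {x, y}) : IsPrincipalIdealRing (C ⧸ Ideal.span {x}) := by
  have hx : x ∈ IsLocalRing.maximalIdeal C := by
    rw [hxy]; exact Ideal.subset_span (by simp)
  have hxtop : Ideal.span {x} ≠ ⊤ := by
    intro h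
    have h1 : (1 : C) ∈ Ideal.span {x} := by rw [h]; trivial
    have h2 : (1 : C) ∈ IsLocalRing.maximalIdeal C :=
      (Ideal.span_le.2 (Set.singleton_subset_iff.2 hx)) h1
    exact (IsLocalRing.mem_maximalIdeal _).1 h2 isUnit_one
  have : Nontrivial (C ⧸ Ideal.span {x}) := Ideal.Quotient.nontrivial_iff.2 hxtop
  have : IsLocalRing (C ⧸ Ideal.span {x}) :=
    IsLocalRing.of_surjective' (Ideal.Quotient.mk _) Ideal.Quotient.mk_surjective
  apply pir_of_principal_maximal (Ideal.Quotient.mk (Ideal.span {x}) y)
  apply le_antisymm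
  · intro z hz
    obtain ⟨c, rfl⟩ := Ideal.Quotient.mk_surjective z
    have h1 : c ∈ IsLocalRing.maximalIdeal C := by
      rw [IsLocalRing.mem_maximalIdeal, mem_nonunits_iff] at hz ⊢
      exact fun h => hz (h.map (Ideal.Quotient.mk _))
    rw [hxy] at h1
    obtain ⟨a, b, hab⟩ := Ideal.mem_span_pair.1 h1
    rw [← hab, map_add, map_mul, map_mul]
    have h2 : Ideal.Quotient.mk (Ideal.span {x}) x = 0 :=
      Ideal.Quotient.eq_zero_iff_mem.2 (Ideal.mem_span_singleton_self x)
    rw [h2, mul_zero, zero_add]
    exact Ideal.mul_mem_left _ _ (Ideal.mem_span_singleton_self _)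
  · rw [Ideal.span_le, Set.singleton_subset_iff]
    show Ideal.Quotient.mk (Ideal.span {x}) y ∈ IsLocalRing.maximalIdeal (C ⧸ Ideal.span {x})
    rw [IsLocalRing.mem_maximalIdeal, mem_nonunits_iff]
    intro h
    obtain ⟨u, hu⟩ := h.exists_right_inv
    obtain ⟨c, rfl⟩ := Ideal.Quotient.mk_surjective u
    rw [← map_mul, ← map_one (Ideal.Quotient.mk (Ideal.span {x})), Ideal.Quotient.eq] at hu
    obtain ⟨d, hd⟩ := Ideal.mem_span_singleton'.1 hu
    have h1 : (1 : C) = y * c - d * x := by rw [hd]; ring
    have h2 : (1 : C) ∈ IsLocalRing.maximalIdeal C := by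
      rw [h1]
      refine Ideal.sub_mem _ (Ideal.mul_mem_right _ _ ?_) (Ideal.mul_mem_left _ _ hx)
      rw [hxy]; exact Ideal.subset_span (by simp)
    exact (IsLocalRing.mem_maximalIdeal _).1 h2 isUnit_one

end Pool.Agent.H77.TE
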