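import Pool.Agent.H77.TE.Gens
import Pool.Agent.H16.TensorMain
import Pool.Agent.H19.Mult.Desc

/-!
# MP_dca5ce_ag: tensor powers of modules that are not free in codimension two
-/

namespace Pool.Agent.H77.TE

open TensorProduct

section loc

variable {A S L : Type*} [CommRing A] [CommRing S] [Algebra A S] [CommRing L] [Algebra S L]
  (p : Ideal S) [p.IsPrime] [IsLocalization.AtPrime L p]

include p in
theorem lift_isUnit (t : (p.comap (algebraMap A S)).primeCompl) :
    IsUnit (((algebraMap S L).comp (algebraMap A S)) (t : A)) := by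
  have h1 : algebraMap A S t ∈ p.primeCompl := t.2
  exact IsLocalization.map_units L (⟨_, h1⟩ : p.primeCompl)

variable (L) in
/-- the map of the localizations -/
noncomputable def phi : Localization.AtPrime (p.comap (algebraMap A S)) →+* L :=
  IsLocalization.lift (M := (p.comap (algebraMap A S)).primeCompl)
    (g := (algebraMap S L).comp (algebraMap A S)) (lift_isUnit (A := A) (L := L) p)

theorem phi_algebraMap (a : A) :
    phi (A := A) L p (algebraMap A _ a) = algebraMap S L (algebraMap A S a) := by
  unfold phi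
  rw [IsLocalization.lift_eq]
  rfl

theorem phi_mem [IsLocalRing L] {x : Localization.AtPrime (p.comap (algebraMap A S))}
    (hx : x ∈ IsLocalRing.maximalIdeal (Localization.AtPrime (p.comap (algebraMap A S)))) :
    phi (A := A) L p x ∈ IsLocalRing.maximalIdeal L := by
  obtain ⟨a, t, rfl⟩ := IsLocalization.exists_mk'_eq (p.comap (algebraMap A S)).primeCompl x
  have h1 : a ∈ p.comap (algebraMap A S) :=
    (IsLocalization.AtPrime.mk'_mem_maximal_iff _ (p.comap (algebraMap A S)) a t).1 hx
  have h2 : phi (A := A) L p (IsLocalization.mk' _ a t) * algebraMap S L (algebraMap A S t) =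
      algebraMap S L (algebraMap A S a) := by
    rw [← phi_algebraMap (A := A) (L := L) p (t : A), ← map_mul, IsLocalization.mk'_spec, phi_algebraMap]
  have h3 : algebraMap S L (algebraMap A S a) ∈ IsLocalRing.maximalIdeal L :=
    (IsLocalization.AtPrime.to_map_mem_maximal_iff L p (algebraMap A S a)).2 h1
  rw [← h2] at h3
  have h4 : IsUnit (algebraMap S L (algebraMap A S t)) := lift_isUnit (A := A) (L := L) p t
  rw [IsLocalRing.mem_maximalIdeal, mem_nonunits_iff] at h3 ⊢
  exact fun h => h3 (h.mul h4)

theorem loc_ideal_gens {g : ℕ} (s : Fin g → S) (hs : Submodule.span A (Set.range s) = ⊤)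
    (x : Localization.AtPrime (p.comap (algebraMap A S)))
    (hx : IsPrincipalIdealRing (Localization.AtPrime (p.comap (algebraMap A S)) ⧸ Ideal.span {x}))
    (J : Ideal (L ⧸ Ideal.span {phi (A := A) L p x})) :
    ∃ b : Fin g → L ⧸ Ideal.span {phi (A := A) L p x}, Ideal.span (Set.range b) = J := by
  have hle : Ideal.span {x} ≤ (Ideal.span {phi (A := A) L p x}).comap (phi (A := A) L p) := by
    rw [Ideal.span_le, Set.singleton_subset_iff]
    exact Ideal.mem_span_singleton_self _
  let ψ : (Localization.AtPrime (p.comap (algebraMap A S)) ⧸ Ideal.span {x}) →+*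
      (L ⧸ Ideal.span {phi (A := A) L p x}) := Ideal.quotientMap _ (phi (A := A) L p) hle
  let _ : Algebra (Localization.AtPrime (p.comap (algebraMap A S)) ⧸ Ideal.span {x})
      (L ⧸ Ideal.span {phi (A := A) L p x}) := ψ.toAlgebra
  have hsmul : ∀ (b : Localization.AtPrime (p.comap (algebraMap A S)) ⧸ Ideal.span {x})
      (t : L ⧸ Ideal.span {phi (A := A) L p x}), b • t = ψ b * t := fun b t => rfl
  refine ideal_gens (B := Localization.AtPrime (p.comap (algebraMap A S)) ⧸ Ideal.span {x}) g
    (fun i => Ideal.Quotient.mk _ (algebraMap S L (s i))) ?_ J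
  intro z
  obtain ⟨l, rfl⟩ := Ideal.Quotient.mk_surjective z
  obtain ⟨r, t, rfl⟩ := IsLocalization.exists_mk'_eq p.primeCompl l
  refine ⟨Ideal.Quotient.mk _ (algebraMap S L t), ?_, ?_⟩
  · exact (IsLocalization.map_units L t).map _
  · rw [← map_mul, mul_comm, IsLocalization.mk'_spec]
    have h1 : r ∈ Submodule.span A (Set.range s) := by rw [hs]; trivial
    obtain ⟨a, rfl⟩ := (Submodule.mem_span_range_iff_exists_fun A).1 h1
    rw [map_sum, map_sum]
    refine Submodule.sum_mem _ fun i _ => ?_
    have h2 : Ideal.Quotient.mk (Ideal.span {phi (A := A) L p x}) (algebraMap S L (a i • s i)) =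
        (Ideal.Quotient.mk (Ideal.span {x}) (algebraMap A _ (a i))) •
          (Ideal.Quotient.mk (Ideal.span {phi (A := A) L p x}) (algebraMap S L (s i))) := by
      rw [hsmul, Algebra.smul_def, map_mul, map_mul]
      show _ = Ideal.quotientMap _ (phi (A := A) L p) hle (Ideal.Quotient.mk _ _) * _
      rw [Ideal.quotientMap_mk, phi_algebraMap]
    rw [h2]
    exact Submodule.smul_mem _ _ (Submodule.subset_span ⟨i, rfl⟩)

end loc

end Pool.Agent.H77.TE
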