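import Pool.Agent.H77.TE.Loc

/-!
# MP_dca5ce_ag: tensor powers of modules that are not free in codimension two
-/

namespace Pool.Agent.H77.TE

open TensorProduct Pool.Agent.H16 Pool.Agent.H19.Mult

universe u

theorem pad {A : Type*} [CommRing A] {N N' : ℕ} (h : N ≤ N')
    (hN : ∀ J : Ideal A, ∃ b : Fin N → A, Ideal.span (Set.range b) = J) :
    ∀ J : Ideal A, ∃ b : Fin N' → A, Ideal.span (Set.range b) = J := by
  intro J
  obtain ⟨b, hb⟩ := hN J
  refine ⟨fun i => if h : (i : ℕ) < N then b ⟨i, h⟩ else 0, ?_⟩
  rw [← hb]
  apply le_antisymm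
  · rw [Ideal.span_le]
    rintro _ ⟨i, rfl⟩
    show (if h : (i : ℕ) < N then b ⟨i, h⟩ else 0) ∈ Ideal.span (Set.range b)
    split_ifs with hi
    · exact Ideal.subset_span ⟨_, rfl⟩
    · exact Ideal.zero_mem _
  · rw [Ideal.span_le]
    rintro _ ⟨i, rfl⟩
    refine Ideal.subset_span ⟨⟨i, by omega⟩, ?_⟩
    show (if h : (i : ℕ) < N then b ⟨i, h⟩ else 0) = b i
    rw [dif_pos i.2]

/-- the maximal ideal of a regular local ring of dimension at most two has two generators -/
theorem two_generators (C : Type*) [CommRing C] [IsRegularLocalRing C] (hdim : ringKrullDim C ≤ 2) :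
    ∃ x y : C, IsLocalRing.maximalIdeal C = Ideal.span {x, y} := by
  have h1 : (IsLocalRing.maximalIdeal C).spanFinrank ≤ 2 := by
    have h2 := IsRegularLocalRing.spanFinrank_maximalIdeal (R := C)
    rw [← h2] at hdim
    exact_mod_cast hdim
  have hfg : (IsLocalRing.maximalIdeal C).FG := (IsLocalRing.maximalIdeal C).fg_of_isNoetherianRing
  have h3 : (IsLocalRing.maximalIdeal C).generators.ncard ≤ 2 := by
    rw [Submodule.FG.generators_ncard hfg]
    exact h1
  have hfin : (IsLocalRing.maximalIdeal C).generators.Finite := Submodule.FG.finite_generators hfg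
  have h4 : Ideal.span (IsLocalRing.maximalIdeal C).generators = IsLocalRing.maximalIdeal C :=
    Submodule.span_generators _
  rw [← h4]
  generalize (IsLocalRing.maximalIdeal C).generators = G at h3 hfin
  interval_cases h : G.ncard
  · rw [Set.ncard_eq_zero hfin] at h
    subst h
    exact ⟨0, 0, by simp⟩
  · obtain ⟨a, rfl⟩ := Set.ncard_eq_one.1 h
    exact ⟨a, a, by simp⟩
  · obtain ⟨a, b, _, rfl⟩ := Set.ncard_eq_two.1 h
    exact ⟨a, b, rfl⟩

/-- The torsion of the tensor powers of a module and of its localizations. -/
theorem torsion_of_localization {R L : Type u} [CommRing R] [CommRing L] [IsDomain R] [IsDomain L]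
    [Algebra R L] [Module.Flat R L] (M : Type u) [AddCommGroup M] [Module R M] (e : ℕ)
    (h : Submodule.torsion L (TensorPower L e (L ⊗[R] M)) ≠ ⊥) :
    Submodule.torsion R (TensorPower R e M) ≠ ⊥ := by
  intro hbot
  apply h
  obtain ⟨E⟩ := tensorPower_baseChange R L M e
  have h3 := torsion_baseChange R L (TensorPower R e M) hbot
  rw [eq_bot_iff]
  rintro t ⟨r, hrt⟩
  have hrt' : r • t = 0 := hrt
  have h4 : E.symm t ∈ Submodule.torsion L (L ⊗[R] TensorPower R e M) := by
    refine ⟨r, ?_⟩
    show r • E.symm t = 0
    rw [Submonoid.smul_def, ← map_smul, ← Submonoid.smul_def, hrt', map_zero]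
  rw [h3, Submodule.mem_bot] at h4
  rw [Submodule.mem_bot]
  exact (LinearEquiv.map_eq_zero_iff E.symm).mp h4

/-- Main theorem: `S` is spanned by `g` elements over a normal domain `A` that is regular in codimension
two, `R` is a localization of `S`, and `M` is not free at some prime of height at most two. -/
theorem torsion_of_not_free (A S R : Type u) [CommRing A] [CommRing S] [CommRing R] [IsDomain S]
    [IsDomain R] [Algebra A S] [Algebra S R] [IsNoetherianRing A] [IsIntegrallyClosed A]
    [FaithfulSMul A S] (W : Submonoid S) [IsLocalization W R]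
    (hreg : ∀ (q : Ideal A) [q.IsPrime], q.height ≤ 2 → IsRegularLocalRing (Localization.AtPrime q))
    (g : ℕ) (s : Fin g → S) (hs : Submodule.span A (Set.range s) = ⊤) (e : ℕ) (he : g + 1 ≤ e)
    (M : Type u) [AddCommGroup M] [Module R M] [Module.Finite R M] (P : Ideal R) [P.IsPrime]
    (hP : P.height ≤ 2)
    (hM : ¬ Module.Free (Localization.AtPrime P) (Localization.AtPrime P ⊗[R] M)) :
    Submodule.torsion R (TensorPower R e M) ≠ ⊥ := by
  classical
  have hfin : Module.Finite A S := ⟨⟨Finset.univ.image s, by
    rw [Finset.coe_image, Finset.coe_univ, Set.image_univ, hs]⟩⟩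
  have hSN : IsNoetherianRing S := IsNoetherianRing.of_finite A S
  have hRN : IsNoetherianRing R := IsLocalization.isNoetherianRing W R hSN
  have hp : (P.comap (algebraMap S R)).IsPrime := inferInstance
  have hloc : IsLocalization.AtPrime (Localization.AtPrime P) (P.comap (algebraMap S R)) :=
    IsLocalization.isLocalization_isLocalization_atPrime_isLocalization W (Localization.AtPrime P) P
  have hpheight : (P.comap (algebraMap S R)).height ≤ 2 := by
    have h1 := IsLocalization.height_under W P
    exact h1.le.trans hP
  have hqheight : ((P.comap (algebraMap S R)).comap (algebraMap A S)).height ≤ 2 := by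
    have h1 : (P.comap (algebraMap S R)).LiesOver ((P.comap (algebraMap S R)).comap (algebraMap A S)) :=
      ⟨rfl⟩
    have h2 := Ideal.height_eq_height_add_of_liesOver_of_hasGoingDown
      ((P.comap (algebraMap S R)).comap (algebraMap A S)) (P.comap (algebraMap S R))
    refine le_trans ?_ hpheight
    rw [h2]
    exact le_self_add
  have hreg' := hreg ((P.comap (algebraMap S R)).comap (algebraMap A S)) hqheight
  obtain ⟨x, y, hxy⟩ := two_generators (Localization.AtPrime
    ((P.comap (algebraMap S R)).comap (algebraMap A S))) (by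
      rw [IsLocalization.AtPrime.ringKrullDim_eq_height
        ((P.comap (algebraMap S R)).comap (algebraMap A S))]
      exact WithBot.coe_le_coe.2 hqheight)
  have hpir := pir_quotient x y hxy
  have hgens := loc_ideal_gens (A := A) (L := Localization.AtPrime P) (P.comap (algebraMap S R)) s hs x hpir
  have hx : x ∈ IsLocalRing.maximalIdeal (Localization.AtPrime
      ((P.comap (algebraMap S R)).comap (algebraMap A S))) := by
    rw [hxy]; exact Ideal.subset_span (by simp)
  have hphi := phi_mem (A := A) (L := Localization.AtPrime P) (P.comap (algebraMap S R)) hx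
  have hLD : IsDomain (Localization.AtPrime P) :=
    IsLocalization.isDomain_localization P.primeCompl_le_nonZeroDivisors
  have hLN : IsNoetherianRing (Localization.AtPrime P) :=
    IsLocalization.isNoetherianRing P.primeCompl _ hRN
  have hflat : Module.Flat R (Localization.AtPrime P) := IsLocalization.flat _ P.primeCompl
  obtain ⟨e', rfl⟩ : ∃ e', e = e' + 1 := ⟨e - 1, by omega⟩
  apply torsion_of_localization (L := Localization.AtPrime P)
  exact TP.main _ hphi e' (pad (by omega) hgens) _ hM

end Pool.Agent.H77.TE
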