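import Pool.Agent.H77.TE.Loc

/-!
# MP_dca5ce_ag: an element of the tensor power killed by all coordinates of relations (no domain needed)
-/

namespace Pool.Agent.H77.TE

open TensorProduct Pool.Agent.H16 Pool.Agent.H16.TP

/-- Strong form of the main theorem of `H16`: the local ring need not be a domain; the element is killed by
all the coordinates of the relations of a minimal system of generators. -/
theorem main_strong {R : Type*} [CommRing R] [IsLocalRing R] [IsNoetherianRing R]
    (x : R) (hx : x ∈ IsLocalRing.maximalIdeal R) (N : ℕ)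
    (hN : ∀ J : Ideal (R ⧸ Ideal.span {x}), ∃ b : Fin N → R ⧸ Ideal.span {x}, Ideal.span (Set.range b) = J)
    (M : Type*) [AddCommGroup M] [Module R M] {n : ℕ} (m : Fin n → M)
    (hm : Submodule.span R (Set.range m) = ⊤)
    (hmin : ∀ r : Fin n → R, ∑ i, r i • m i = 0 → ∀ i, r i ∈ IsLocalRing.maximalIdeal R)
    (hn : 0 < n) :
    ∃ z : TensorPower R (N + 1) M, z ≠ 0 ∧
      ∀ r : Fin n → R, ∑ i, r i • m i = 0 → ∀ i, r i • z = 0 := by
  classical
  let g0 : Fin n := ⟨0, hn⟩
  set S : Set R := {s | ∃ r : Fin n → R, ∑ i, r i • m i = 0 ∧ ∃ g, s = r g} with hS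
  set c : Ideal R := Ideal.span S with hc
  have hcoord : ∀ r : Fin n → R, ∑ i, r i • m i = 0 → ∀ i, r i ∈ c := fun r hr i =>
    Ideal.subset_span ⟨r, hr, i, rfl⟩
  have hcle : c ≤ IsLocalRing.maximalIdeal R := by
    rw [hc, Ideal.span_le]
    rintro _ ⟨r, hr, g, rfl⟩
    exact hmin r hr g
  have hctop : c ≠ ⊤ := by
    intro h
    have : (1 : R) ∈ c := by rw [h]; trivial
    exact (IsLocalRing.mem_maximalIdeal _).1 (hcle this) isUnit_one
  -- generators of `c` modulo `x`
  obtain ⟨a, haS, hca⟩ : ∃ a : Fin N → R, (∀ j, a j ∈ S) ∧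
      c ≤ Ideal.span (Set.range a) ⊔ Ideal.span {x} := by
    have hxtop : Ideal.span {x} ≠ ⊤ := by
      intro h
      have h1 : (1 : R) ∈ Ideal.span {x} := by rw [h]; trivial
      have h2 : (1 : R) ∈ IsLocalRing.maximalIdeal R :=
        (Ideal.span_le.2 (Set.singleton_subset_iff.2 hx)) h1
      exact (IsLocalRing.mem_maximalIdeal _).1 h2 isUnit_one
    have : Nontrivial (R ⧸ Ideal.span {x}) := Ideal.Quotient.nontrivial_iff.2 hxtop
    have : IsLocalRing (R ⧸ Ideal.span {x}) :=
      IsLocalRing.of_surjective' (Ideal.Quotient.mk _) Ideal.Quotient.mk_surjective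
    obtain ⟨b, hb⟩ := hN (Ideal.span (Ideal.Quotient.mk (Ideal.span {x}) '' S))
    obtain ⟨a', ha', hspan⟩ := exchange (R := R ⧸ Ideal.span {x}) (M := R ⧸ Ideal.span {x})
      (Ideal.Quotient.mk (Ideal.span {x}) '' S) ⟨0, ⟨0, by simp, g0, rfl⟩, map_zero _⟩ b hb
    choose a haS haeq using ha'
    refine ⟨a, haS, ?_⟩
    intro s hs
    have h1 : Ideal.Quotient.mk (Ideal.span {x}) s ∈
        Ideal.span (Ideal.Quotient.mk (Ideal.span {x}) '' S) := by
      rw [← Ideal.map_span]
      exact Ideal.mem_map_of_mem _ hs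
    have h2 : Ideal.Quotient.mk (Ideal.span {x}) s ∈
        (Ideal.span (Set.range a)).map (Ideal.Quotient.mk (Ideal.span {x})) := by
      rw [Ideal.map_span, ← Set.range_comp]
      have h3 : (Ideal.Quotient.mk (Ideal.span {x})) ∘ a = a' := funext haeq
      have h6 : Ideal.span (Set.range a') =
          Ideal.span (Ideal.Quotient.mk (Ideal.span {x}) '' S) := hspan
      rw [h3, h6]
      exact h1
    obtain ⟨s', hs', hss'⟩ := (Ideal.mem_map_iff_of_surjective _ Ideal.Quotient.mk_surjective).1 h2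
    have h4 : s - s' ∈ Ideal.span {x} := (Ideal.Quotient.eq.1 hss'.symm)
    have h5 : s = s' + (s - s') := by ring
    rw [h5]
    exact Submodule.add_mem_sup hs' h4
  choose κ hκ gi hgi using haS
  have hac : ∀ j, a j ∈ c := fun j => by
    rw [hgi j]
    exact hcoord _ (hκ j) _
  obtain ⟨X, hcX, r, α, hα, g1, hg1⟩ := exists_X m g0 c hc hctop x hx a hac hca
  -- expand the relations
  have hexp : ∀ (i : Fin N) (g : Fin n), ∃ (ρ : Fin N → R) (b : R),
      κ i g = ∑ j, ρ j * a j + X * b ∧ (g = gi i → (∀ j, ρ j = if j = i then 1 else 0) ∧ b = 0) := by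
    intro i g
    by_cases h : g = gi i
    · subst h
      refine ⟨fun j => if j = i then 1 else 0, 0, ?_, fun _ => ⟨fun j => rfl, rfl⟩⟩
      rw [← hgi i]
      simp
    · obtain ⟨ρ, b, hb⟩ := mem_span_range_sup a X (κ i g) (hcX (hcoord _ (hκ i) g))
      exact ⟨ρ, b, hb, fun h' => absurd h' h⟩
  choose ρ β hρ hδ using hexp
  -- functionals
  choose f hf using exists_coord m hm c hcoord
  let x' : Fin (N + 1) → R := Fin.cons X a
  let col : Fin (N + 1) → (Fin (N + 1) → M) :=
    Fin.cons (Fin.cons (∑ i, r i • m i) (fun i => ∑ g, β i g • m g))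
      (fun j => Fin.cons (- α j) (fun i => ∑ g, ρ i g j • m g))
  let F : Fin (N + 1) → (M →ₗ[R] (R ⧸ c)) := Fin.cons (f g1) (fun i => f (gi i))
  have hsum : ∑ j, x' j • col j = 0 := by
    rw [Fin.sum_univ_succ]
    funext i
    simp only [Pi.add_apply, Finset.sum_apply, Pi.smul_apply, x', col, Fin.cons_zero, Fin.cons_succ,
      Pi.zero_apply]
    induction i using Fin.cases with
    | zero =>
      simp only [Fin.cons_zero, smul_neg, Finset.sum_neg_distrib]
      rw [hα, add_neg_cancel]
    | succ i =>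
      simp only [Fin.cons_succ]
      have h1 : ∑ g, κ i g • m g = 0 := hκ i
      have h2 : ∑ g, κ i g • m g = X • ∑ g, β i g • m g + ∑ j, a j • ∑ g, ρ i g j • m g := by
        have h3 : ∑ g, κ i g • m g = ∑ g, (∑ j, ρ i g j * a j + X * β i g) • m g :=
          Finset.sum_congr rfl fun g _ => by rw [← hρ i g]
        rw [h3, add_comm]
        simp only [Finset.smul_sum, add_smul, Finset.sum_add_distrib, Finset.sum_smul, mul_smul]
        rw [Finset.sum_comm]
        congr 1
        refine Finset.sum_congr rfl fun j _ => Finset.sum_congr rfl fun g _ => ?_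
        rw [smul_comm]
      rw [← h2, h1]
  -- all the coordinates of relations kill `D col`
  have hkill : ∀ l, x' l • D R M (N + 1) col = 0 := fun l => smul_D_eq_zero x' col hsum l
  refine ⟨D R M (N + 1) col, ?_, ?_⟩
  swap
  · intro ρ' hρ' i
    obtain ⟨ρ'', b', hb'⟩ := mem_span_range_sup a X _ (hcX (hcoord ρ' hρ' i))
    rw [hb', add_smul, Finset.sum_smul]
    have h1 : ∀ j, (ρ'' j * a j) • D R M (N + 1) col = 0 := by
      intro j
      rw [mul_smul]
      have := hkill j.succ
      simp only [x', Fin.cons_succ] at this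
      rw [this, smul_zero]
    have h2 : (X * b') • D R M (N + 1) col = 0 := by
      rw [mul_comm, mul_smul]
      have := hkill 0
      simp only [x', Fin.cons_zero] at this
      rw [this, smul_zero]
    rw [Finset.sum_eq_zero fun j _ => h1 j, h2, add_zero]
  intro hzero
  have hdet : Matrix.det (Matrix.of fun j i => F i (col j i)) ≠ 0 := ?_
  · apply hdet
    rw [← prodForm_D, hzero, map_zero]
  rw [Matrix.det_succ_row_zero, Fin.sum_univ_succ]
  have hrow : ∀ i : Fin N, (Matrix.of fun j i => F i (col j i)) 0 i.succ = 0 := by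
    intro i
    show F i.succ (col 0 i.succ) = 0
    simp only [F, col, Fin.cons_zero, Fin.cons_succ]
    rw [hf, ((hδ i (gi i)) rfl).2, map_zero]
  have hsub : (Matrix.of fun j i => F i (col j i)).submatrix Fin.succ (Fin.succAbove 0) =
      (1 : Matrix (Fin N) (Fin N) (R ⧸ c)) := by
    ext j i
    rw [Matrix.submatrix_apply, Fin.succAbove_zero]
    show F i.succ (col j.succ i.succ) = _
    simp only [F, col, Fin.cons_succ]
    rw [hf, ((hδ i (gi i)) rfl).1, Matrix.one_apply]
    split_ifs <;> simp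
  simp only [hrow, mul_zero, zero_mul, Finset.sum_const_zero, add_zero]
  rw [hsub, Matrix.det_one]
  show (-1) ^ ((0 : Fin (N + 1)) : ℕ) * (F 0 (col 0 0)) * 1 ≠ 0
  simp only [F, col, Fin.cons_zero, Fin.val_zero, pow_zero, one_mul, mul_one]
  rw [hf, Ne, Ideal.Quotient.eq_zero_iff_mem]
  exact hg1


end Pool.Agent.H77.TE
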