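import Pool.Agent.H77.TE.Strong
import Pool.Agent.H77.TE.Flat

/-!
# MP_dca5ce_ag: descent of the strong form along flat local maps; heights in finite algebras
-/

namespace Pool.Agent.H77.TE

open TensorProduct Pool.Agent.H16 Pool.Agent.H16.TP Pool.Agent.H19.Mult

universe u

/-- The coordinates of relations of the images of minimal generators in a local extension. -/
theorem relation_mem {R₀ L : Type u} [CommRing R₀] [IsLocalRing R₀] [CommRing L] [IsLocalRing L]
    [Algebra R₀ L] [IsLocalHom (algebraMap R₀ L)] {M₀ : Type u} [AddCommGroup M₀] [Module R₀ M₀]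
    {n : ℕ} (m : Fin n → M₀) (hm : Submodule.span R₀ (Set.range m) = ⊤)
    (hmin : ∀ r : Fin n → R₀, ∑ i, r i • m i = 0 → ∀ i, r i ∈ IsLocalRing.maximalIdeal R₀)
    (r : Fin n → L) (hr : ∑ i, r i • ((1 : L) ⊗ₜ[R₀] m i) = 0) (i : Fin n) :
    r i ∈ IsLocalRing.maximalIdeal L := by
  classical
  obtain ⟨f, hf⟩ := exists_coord m hm (IsLocalRing.maximalIdeal R₀) hmin i
  have hle : IsLocalRing.maximalIdeal R₀ ≤
      (IsLocalRing.maximalIdeal L).comap (algebraMap R₀ L) := by
    intro a ha
    rw [Ideal.mem_comap, IsLocalRing.mem_maximalIdeal, mem_nonunits_iff]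
    rw [IsLocalRing.mem_maximalIdeal, mem_nonunits_iff] at ha
    exact fun h => ha (isUnit_of_map_unit (algebraMap R₀ L) a h)
  let ψ : (R₀ ⧸ IsLocalRing.maximalIdeal R₀) →+* (L ⧸ IsLocalRing.maximalIdeal L) :=
    Ideal.quotientMap _ (algebraMap R₀ L) hle
  let ψ' : (R₀ ⧸ IsLocalRing.maximalIdeal R₀) →ₗ[R₀] (L ⧸ IsLocalRing.maximalIdeal L) :=
    { toFun := ψ
      map_add' := fun a b => map_add ψ a b
      map_smul' := by
        intro a b
        obtain ⟨c, rfl⟩ := Ideal.Quotient.mk_surjective b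
        have h1 : a • (Ideal.Quotient.mk (IsLocalRing.maximalIdeal R₀) c) =
            Ideal.Quotient.mk (IsLocalRing.maximalIdeal R₀) (a * c) := rfl
        rw [h1]
        show Ideal.quotientMap _ (algebraMap R₀ L) hle (Ideal.Quotient.mk _ _) =
          a • Ideal.quotientMap _ (algebraMap R₀ L) hle (Ideal.Quotient.mk _ _)
        rw [Ideal.quotientMap_mk, Ideal.quotientMap_mk, map_mul, map_mul, Algebra.smul_def]
        rfl }
  let F : L ⊗[R₀] M₀ →ₗ[L] (L ⧸ IsLocalRing.maximalIdeal L) := LinearMap.liftBaseChange L (ψ'.comp f)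
  have hF : ∀ j, F ((1 : L) ⊗ₜ[R₀] m j) = if j = i then 1 else 0 := by
    intro j
    have h1 : F ((1 : L) ⊗ₜ[R₀] m j) = (1 : L) • ψ (f (m j)) := LinearMap.liftBaseChange_tmul L _ _ _
    have h2 := hf (Pi.single j 1)
    have h3 : ∑ l, (Pi.single j 1 : Fin n → R₀) l • m l = m j := by
      rw [Finset.sum_eq_single j]
      · simp
      · intro l _ hl
        simp [hl]
      · intro h
        exact absurd (Finset.mem_univ j) h
    rw [h3] at h2
    rw [h1, h2, one_smul, Pi.single_apply]
    by_cases hji : j = i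
    · rw [if_pos hji.symm, if_pos hji, map_one, map_one]
    · rw [if_neg (fun h => hji h.symm), if_neg hji, map_zero, map_zero]
  have h4 := congrArg F hr
  rw [map_zero, map_sum] at h4
  have h5 : ∑ j, F (r j • ((1 : L) ⊗ₜ[R₀] m j)) = Ideal.Quotient.mk (IsLocalRing.maximalIdeal L) (r i) := by
    rw [Finset.sum_eq_single i]
    · rw [map_smul, hF, if_pos rfl, Algebra.smul_def, mul_one]
      rfl
    · intro j _ hj
      rw [map_smul, hF, if_neg hj, smul_zero]
    · intro h
      exact absurd (Finset.mem_univ i) h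
  rw [h5] at h4
  exact Ideal.Quotient.eq_zero_iff_mem.1 h4

/-- torsion over a local domain from a flat local extension with few generators modulo `x` -/
theorem strong_descent {R₀ L : Type u} [CommRing R₀] [IsLocalRing R₀] [IsDomain R₀] [CommRing L]
    [IsLocalRing L] [IsNoetherianRing L] [Algebra R₀ L] [Module.Flat R₀ L]
    [IsLocalHom (algebraMap R₀ L)] (x : L) (hx : x ∈ IsLocalRing.maximalIdeal L) (N : ℕ)
    (hN : ∀ J : Ideal (L ⧸ Ideal.span {x}), ∃ b : Fin N → L ⧸ Ideal.span {x}, Ideal.span (Set.range b) = J)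
    (M₀ : Type u) [AddCommGroup M₀] [Module R₀ M₀] [Module.Finite R₀ M₀] (hM : ¬ Module.Free R₀ M₀) :
    Submodule.torsion R₀ (TensorPower R₀ (N + 1) M₀) ≠ ⊥ := by
  classical
  obtain ⟨n, m, hm, hmin⟩ := exists_minimal_generators (R := R₀) (M := M₀)
  obtain ⟨r0, hr0, g0, hg0⟩ : ∃ r0 : Fin n → R₀, ∑ i, r0 i • m i = 0 ∧ ∃ g0, r0 g0 ≠ 0 := by
    by_contra hcon
    push Not at hcon
    apply hM
    have hli : LinearIndependent R₀ m := Fintype.linearIndependent_iff.2 hcon
    exact Module.Free.of_basis (Module.Basis.mk hli hm.ge)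
  have hspan : Submodule.span L (Set.range fun i => (1 : L) ⊗ₜ[R₀] m i) = ⊤ := by
    rw [eq_top_iff]
    intro t _
    induction t using TensorProduct.induction_on with
    | zero => exact Submodule.zero_mem _
    | add s t hs ht => exact Submodule.add_mem _ (hs trivial) (ht trivial)
    | tmul l y =>
      have hy : y ∈ Submodule.span R₀ (Set.range m) := by rw [hm]; trivial
      obtain ⟨c, rfl⟩ := (Submodule.mem_span_range_iff_exists_fun R₀).1 hy
      rw [TensorProduct.tmul_sum]
      refine Submodule.sum_mem _ fun j _ => ?_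
      have h1 : l ⊗ₜ[R₀] (c j • m j) = (l * algebraMap R₀ L (c j)) • ((1 : L) ⊗ₜ[R₀] m j) := by
        rw [TensorProduct.tmul_smul, TensorProduct.smul_tmul', TensorProduct.smul_tmul', smul_eq_mul,
          mul_one, Algebra.smul_def, mul_comm]
      rw [h1]
      exact Submodule.smul_mem _ _ (Submodule.subset_span ⟨j, rfl⟩)
  obtain ⟨z, hz, hzr⟩ := main_strong x hx N hN (L ⊗[R₀] M₀) (fun i => (1 : L) ⊗ₜ[R₀] m i) hspan
    (fun r hr i => relation_mem m hm hmin r hr i) (lt_of_le_of_lt (Nat.zero_le _) g0.2)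
  have h1 : algebraMap R₀ L (r0 g0) • z = 0 := by
    refine hzr (fun i => algebraMap R₀ L (r0 i)) ?_ g0
    have h2 : ∀ i, algebraMap R₀ L (r0 i) • ((1 : L) ⊗ₜ[R₀] m i) = (1 : L) ⊗ₜ[R₀] (r0 i • m i) := by
      intro i
      rw [TensorProduct.tmul_smul, TensorProduct.smul_tmul', TensorProduct.smul_tmul', smul_eq_mul,
        mul_one, Algebra.smul_def, mul_one]
    rw [Finset.sum_congr rfl fun i _ => h2 i, ← TensorProduct.tmul_sum, hr0, TensorProduct.tmul_zero]
  intro hbot
  obtain ⟨E⟩ := tensorPower_baseChange R₀ L M₀ (N + 1)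
  have h2 : algebraMap R₀ L (r0 g0) • E.symm z = 0 := by rw [← map_smul, h1, map_zero]
  have h3 : Function.Injective (LinearMap.lsmul R₀ (TensorPower R₀ (N + 1) M₀) (r0 g0)) := by
    rw [injective_iff_map_eq_zero]
    intro t ht
    have h4 : t ∈ Submodule.torsion R₀ (TensorPower R₀ (N + 1) M₀) := by
      rw [Submodule.mem_torsion_iff]
      exact ⟨⟨r0 g0, mem_nonZeroDivisors_of_ne_zero hg0⟩, ht⟩
    rw [hbot] at h4
    exact h4
  have h4 := Module.Flat.lTensor_preserves_injective_linearMap (M := L) _ h3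
  have h5 : ∀ w : L ⊗[R₀] TensorPower R₀ (N + 1) M₀,
      LinearMap.lTensor L (LinearMap.lsmul R₀ (TensorPower R₀ (N + 1) M₀) (r0 g0)) w =
        algebraMap R₀ L (r0 g0) • w := by
    intro w
    induction w using TensorProduct.induction_on with
    | zero => simp
    | add s t hs ht => rw [map_add, hs, ht, smul_add]
    | tmul l y =>
      rw [LinearMap.lTensor_tmul, TensorProduct.smul_tmul', algebraMap_smul, ← TensorProduct.smul_tmul',
        ← TensorProduct.tmul_smul]
      rfl
  have h6 : E.symm z = 0 := by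
    apply h4
    rw [h5, h2, map_zero]
  apply hz
  exact (LinearEquiv.map_eq_zero_iff E.symm).mp h6

/-- heights of contractions in a finite algebra all of whose minimal primes contract to zero -/
theorem height_contraction {A S : Type*} [CommRing A] [CommRing S] [Algebra A S] [IsDomain A]
    [IsNoetherianRing A] [IsIntegrallyClosed A] [Module.Finite A S]
    (hmin : ∀ I ∈ minimalPrimes S, Ideal.comap (algebraMap A S) I = ⊥) (p : Ideal S) [hp : p.IsPrime] :
    (p.comap (algebraMap A S)).height ≤ p.height := by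
  have hSN : IsNoetherianRing S := IsNoetherianRing.of_finite A S
  obtain ⟨I, hI, hIp⟩ := Ideal.exists_minimalPrimes_le (I := (⊥ : Ideal S)) (J := p) bot_le
  have hIprime : I.IsPrime := hI.1.1
  have hfin : Module.Finite A (S ⧸ I) := inferInstance
  have hinj : FaithfulSMul A (S ⧸ I) := by
    rw [faithfulSMul_iff_algebraMap_injective, injective_iff_map_eq_zero]
    intro a ha
    have h1 : algebraMap A S a ∈ I := by
      rw [← Ideal.Quotient.eq_zero_iff_mem]
      exact ha
    have h2 : a ∈ Ideal.comap (algebraMap A S) I := h1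
    rw [hmin I hI] at h2
    exact h2
  have hker : RingHom.ker (Ideal.Quotient.mk I) ≤ p := by
    rw [Ideal.mk_ker]; exact hIp
  have hbar : (p.map (Ideal.Quotient.mk I)).IsPrime :=
    Ideal.map_isPrime_of_surjective Ideal.Quotient.mk_surjective hker
  have hcomap : (p.map (Ideal.Quotient.mk I)).comap (Ideal.Quotient.mk I) = p := by
    rw [Ideal.comap_map_of_surjective _ Ideal.Quotient.mk_surjective, ← RingHom.ker_eq_comap_bot]
    exact sup_eq_left.2 hker
  have hover : (p.map (Ideal.Quotient.mk I)).LiesOver (p.comap (algebraMap A S)) := by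
    constructor
    show p.comap (algebraMap A S) = (p.map (Ideal.Quotient.mk I)).comap (algebraMap A (S ⧸ I))
    have h1 : algebraMap A (S ⧸ I) = (Ideal.Quotient.mk I).comp (algebraMap A S) := rfl
    rw [h1, ← Ideal.comap_comap, hcomap]
  have h1 : (p.comap (algebraMap A S)).height ≤ (p.map (Ideal.Quotient.mk I)).height := by
    rw [Ideal.height_eq_height_add_of_liesOver_of_hasGoingDown (p.comap (algebraMap A S))
      (p.map (Ideal.Quotient.mk I))]
    exact le_self_add
  refine h1.trans ?_
  have h2 := Order.height_le_height_apply_of_strictMono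
    (PrimeSpectrum.comap (Ideal.Quotient.mk I))
    (RingHom.strictMono_comap_of_surjective Ideal.Quotient.mk_surjective)
    (⟨p.map (Ideal.Quotient.mk I), hbar⟩ : PrimeSpectrum (S ⧸ I))
  rw [← PrimeSpectrum.height_eq_orderHeight, ← PrimeSpectrum.height_eq_orderHeight] at h2
  have h3 : (PrimeSpectrum.comap (Ideal.Quotient.mk I)
      (⟨p.map (Ideal.Quotient.mk I), hbar⟩ : PrimeSpectrum (S ⧸ I))).asIdeal = p := hcomap
  rw [h3] at h2
  exact h2

end Pool.Agent.H77.TE
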